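import Pool.Agent.X145.SS.Main

/-!
# SparseStack matrices of constant sparsity are not oblivious subspace injections

For every sparsity bound `C₁`, every `C₂`, every injectivity parameter `α > 0` and every `η > 0`, once
`r` is large, an `n × (b ζ)` SparseStack with `ζ ≤ C₁` and `b ζ ≤ C₂ r` fails to inject some fixed
`r`-dimensional (coordinate) subspace with probability at least `1 - η`. This answers both questions
in the negative.
-/

set_option autoImplicit false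
open Matrix Filter Topology
open Pool.Agent.X145.SS

namespace Pool.Agent.Results.MP_59a663_pr.NoConstantSparsity

/-- The SparseStack with parameters `n, b, ζ` is an oblivious subspace injection for dimension `r`
with parameter `α` (and failure probability `0.01`): isotropy `E ‖Ωᵀ x‖² = ‖x‖²`, and for every fixed
`r`-dimensional subspace the injectivity inequality holds with probability at least `0.99`. -/
def IsOSI (n b ζ r : ℕ) (α : ℝ) : Prop :=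
  (∀ x : Fin n → ℝ, (∑ ω : Outcome n b ζ, normSq ((sparseStack ω)ᵀ.mulVec x)) /
      (Nat.card (Outcome n b ζ) : ℝ) = normSq x) ∧
  ∀ V : Submodule ℝ (Fin n → ℝ), Module.finrank ℝ V = r →
    (99 / 100 : ℝ) ≤ prob {ω : Outcome n b ζ | Injects ω V α}

/-- The statement of Q1. -/
def Q1 : Prop :=
  ∃ c C₁ C₂ α₀ : ℝ, 0 < c ∧ 0 < C₁ ∧ 0 < C₂ ∧ 0 < α₀ ∧
    ∀ n r : ℕ, 1 ≤ r → (r : ℝ) ≤ c * n / Real.log n →
      ∃ ζ b : ℕ, 1 ≤ ζ ∧ (ζ : ℝ) ≤ C₁ ∧ 1 ≤ b ∧ ((b * ζ : ℕ) : ℝ) ≤ C₂ * r ∧ IsOSI n b ζ r α₀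

/-- The statement of Q2, with `ζ = 4`, `b = r/2`. -/
def Q2 : Prop :=
  ∃ c α₀ : ℝ, 0 < c ∧ 0 < α₀ ∧ ∃ r₁ : ℕ, ∀ n r : ℕ, r₁ ≤ r → Even r →
    (r : ℝ) ≤ c * n / Real.log n → IsOSI n (r / 2) 4 r α₀

theorem strong (C₁ C₂ α η : ℝ) (hC₁ : 0 < C₁) (hC₂ : 0 < C₂) (hα : 0 < α) (hη : 0 < η) :
    ∃ r₀ : ℕ, ∀ r n b ζ : ℕ, r₀ ≤ r → r ≤ n → 1 ≤ ζ → 1 ≤ b → (ζ : ℝ) ≤ C₁ →
      ((b * ζ : ℕ) : ℝ) ≤ C₂ * r →
      ∃ V : Submodule ℝ (Fin n → ℝ), Module.finrank ℝ V = r ∧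
        prob {ω : Outcome n b ζ | Injects ω V α} ≤ η := by
  obtain ⟨r₀, h⟩ := main (⌈C₁⌉₊) C₂ α η (Nat.ceil_pos.2 hC₁) hC₂ hα hη
  refine ⟨r₀, fun r n b ζ hr hrn hζ hb hζC hk => ⟨coordSub n r, finrank_coordSub n r hrn, ?_⟩⟩
  refine h r n b ζ hr hrn hζ hb ?_ hk
  have : (ζ : ℝ) ≤ (⌈C₁⌉₊ : ℝ) := hζC.trans (Nat.le_ceil _)
  exact_mod_cast this

/-- For every `r` there are arbitrarily large `n` in the regime. -/
theorem exists_n (c : ℝ) (hc : 0 < c) (r : ℕ) : ∃ n : ℕ, r ≤ n ∧ (r : ℝ) ≤ c * n / Real.log n := by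
  have h1 : Tendsto (fun n : ℕ => c * ((n : ℝ) / Real.log n)) atTop atTop := by
    refine Tendsto.const_mul_atTop hc ?_
    have h2 : Tendsto (fun x : ℝ => x / Real.log x) atTop atTop := by
      have h3 := Real.isLittleO_log_id_atTop
      have h4 : Tendsto (fun x : ℝ => Real.log x / x) atTop (𝓝 0) := h3.tendsto_div_nhds_zero
      have h5 : Tendsto (fun x : ℝ => Real.log x / x) atTop (𝓝[>] 0) := by
        refine tendsto_nhdsWithin_iff.2 ⟨h4, ?_⟩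
        filter_upwards [eventually_gt_atTop 1] with x hx
        exact div_pos (Real.log_pos hx) (by linarith)
      have h6 := h5.inv_tendsto_nhdsGT_zero
      refine h6.congr fun x => ?_
      simp
    exact h2.comp tendsto_natCast_atTop_atTop
  obtain ⟨n, hn1, hn2⟩ := ((h1.eventually_ge_atTop (r : ℝ)).and (eventually_ge_atTop r)).exists
  refine ⟨n, hn2, ?_⟩
  rw [mul_div_assoc]
  exact hn1

/-- **Main theorem.** (i) For all `C₁, C₂, α, η > 0` there is `r₀` such that for all `r ≥ r₀`, `n ≥ r`,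
`1 ≤ ζ ≤ C₁` and `b ≥ 1` with `b ζ ≤ C₂ r`, some fixed `r`-dimensional subspace `V` of `ℝⁿ` is injected
with parameter `α` with probability at most `η` only. (ii) The statement of Q1 is false. (iii) The
statement of Q2 is false. -/
theorem result :
    (∀ C₁ C₂ α η : ℝ, 0 < C₁ → 0 < C₂ → 0 < α → 0 < η →
      ∃ r₀ : ℕ, ∀ r n b ζ : ℕ, r₀ ≤ r → r ≤ n → 1 ≤ ζ → 1 ≤ b → (ζ : ℝ) ≤ C₁ →
        ((b * ζ : ℕ) : ℝ) ≤ C₂ * r →
        ∃ V : Submodule ℝ (Fin n → ℝ), Module.finrank ℝ V = r ∧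
          prob {ω : Outcome n b ζ | Injects ω V α} ≤ η) ∧
    ¬ Q1 ∧ ¬ Q2 := by
  refine ⟨strong, ?_, ?_⟩
  · rintro ⟨c, C₁, C₂, α₀, hc, hC₁, hC₂, hα, H⟩
    obtain ⟨r₀, h⟩ := strong C₁ C₂ α₀ (1 / 2) hC₁ hC₂ hα (by norm_num)
    obtain ⟨n, hn1, hn2⟩ := exists_n c hc (max r₀ 1)
    obtain ⟨ζ, b, hζ, hζC, hb, hk, hosi⟩ := H n (max r₀ 1) (le_max_right _ _) hn2
    obtain ⟨V, hV, hprob⟩ := h (max r₀ 1) n b ζ (le_max_left _ _) hn1 hζ hb hζC hk
    have := hosi.2 V hV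
    linarith
  · rintro ⟨c, α₀, hc, hα, r₁, H⟩
    obtain ⟨r₀, h⟩ := strong 4 2 α₀ (1 / 2) (by norm_num) (by norm_num) hα (by norm_num)
    set r : ℕ := 2 * (max (max r₀ r₁) 1) with hr
    have hr0 : r₀ ≤ r := by
      have := (le_max_left r₀ r₁).trans (le_max_left _ 1)
      omega
    have hr1 : r₁ ≤ r := by
      have := (le_max_right r₀ r₁).trans (le_max_left _ 1)
      omega
    have hr2 : 1 ≤ r / 2 := by
      have := le_max_right (max r₀ r₁) 1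
      omega
    obtain ⟨n, hn1, hn2⟩ := exists_n c hc r
    have hev : Even r := ⟨max (max r₀ r₁) 1, by omega⟩
    have hosi := H n r hr1 hev hn2
    have h4 : r / 2 * 4 = 2 * r := by omega
    obtain ⟨V, hV, hprob⟩ := h r n (r / 2) 4 hr0 hn1 (by norm_num) hr2 (by norm_num)
      (by rw [h4]; push_cast; exact le_refl _)
    have := hosi.2 V hV
    linarith

end Pool.Agent.Results.MP_59a663_pr.NoConstantSparsity
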